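import Mathlib
import Pool.Graph.R_pool_sql_team_seeded_b0a926ef.R50.Burling

/-!
# Triangle-free graphs with star cutsets: the threshold

Let `C_q` be the class of the triangle-free graphs every induced subgraph of which is `q`-colourable
or has a star cutset.  For `q ≤ 2` all its members are `q`-colourable.  For `q = 3` the chromatic
number is unbounded, even if being `3`-colourable is replaced by being a forest plus at most one vertex.
-/

set_option autoImplicit false

namespace Pool.Agent.Results.MP_4f8534_co.StarCutsetThreshold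

open Pool.Agent.R50.Burling

/-- The subgraph of `G` induced on `T` has a star cutset `S`: the set `S ⊆ T` contains a vertex `v`
which is adjacent to all other members of `S`, and the subgraph induced on `T \ S` is disconnected
(two of its vertices are not joined by a path). -/
def HasStarCutset {V : Type} (G : SimpleGraph V) (T : Set V) : Prop :=
  ∃ S : Set V, S ⊆ T ∧ (∃ v ∈ S, ∀ w ∈ S, w ≠ v → G.Adj v w) ∧
    ∃ a b : ↥(T \ S), ¬ (G.induce (T \ S)).Reachable a b

/-! ### `q ≤ 2` -/

theorem two_colours {q : ℕ} (hq : q ≤ 2) (x y z : Fin q) (h1 : x ≠ z) (h2 : y ≠ z) : x = y := by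
  have := x.2; have := y.2; have := z.2
  have h1' : x.val ≠ z.val := fun h => h1 (Fin.ext h)
  have h2' : y.val ≠ z.val := fun h => h2 (Fin.ext h)
  exact Fin.ext (by omega)

theorem small (q : ℕ) (hq : q ≤ 2) {V : Type} [Finite V] (G : SimpleGraph V)
    (h : ∀ T : Set V, (G.induce T).Colorable q ∨ HasStarCutset G T) :
    ∀ (n : ℕ) (T : Set V), T.ncard = n → (G.induce T).Colorable q := by
  classical
  intro n
  induction n using Nat.strong_induction_on with
  | _ n ih =>
    intro T hT
    rcases h T with h1 | ⟨S, hST, ⟨v, hv, hstar⟩, a, b, hab⟩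
    · exact h1
    · -- the vertices reachable from `a`
      let A : Set V := {x | ∃ hx : x ∈ T \ S, (G.induce (T \ S)).Reachable a ⟨x, hx⟩}
      have hbA : b.1 ∉ A := fun ⟨hx, hr⟩ => hab hr
      have haA : a.1 ∈ A := ⟨a.2, SimpleGraph.Reachable.refl _⟩
      have hAT : A ⊆ T := fun x ⟨hx, _⟩ => hx.1
      have hAS : ∀ x ∈ A, x ∉ S := fun x ⟨hx, _⟩ => hx.2
      have hadj : ∀ x y, x ∈ A → y ∈ T → y ∉ S → G.Adj x y → y ∈ A := by
        rintro x y ⟨hx, hr⟩ hy hyS hxy
        exact ⟨⟨hy, hyS⟩, hr.trans (SimpleGraph.Adj.reachable (by exact hxy))⟩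
      have hT1 : (A ∪ S).ncard < n := by
        rw [← hT]
        refine Set.ncard_lt_ncard ⟨Set.union_subset hAT hST, fun hsub => ?_⟩ (Set.toFinite _)
        rcases hsub b.2.1 with h2 | h2
        · exact hbA h2
        · exact b.2.2 h2
      have hT2 : (T \ A).ncard < n := by
        rw [← hT]
        refine Set.ncard_lt_ncard ⟨Set.sdiff_subset, fun hsub => ?_⟩ (Set.toFinite _)
        exact (hsub a.2.1).2 haA
      obtain ⟨c1⟩ := ih _ hT1 (A ∪ S) rfl
      obtain ⟨c2⟩ := ih _ hT2 (T \ A) rfl
      have v1 : v ∈ A ∪ S := Or.inr hv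
      have v2 : v ∈ T \ A := ⟨hST hv, fun h2 => hAS v h2 hv⟩
      let σ : Equiv.Perm (Fin q) := Equiv.swap (c2 ⟨v, v2⟩) (c1 ⟨v, v1⟩)
      have agree : ∀ (x : V) (x1 : x ∈ A ∪ S) (x2 : x ∈ T \ A), x ∈ S →
          c1 ⟨x, x1⟩ = σ (c2 ⟨x, x2⟩) := by
        intro x x1 x2 hx
        by_cases hxv : x = v
        · subst hxv
          exact (Equiv.swap_apply_left _ _).symm
        · have e := hstar x hx hxv
          have n1 : c1 ⟨x, x1⟩ ≠ c1 ⟨v, v1⟩ := c1.valid (show G.Adj x v from e.symm)
          have n2 : c2 ⟨x, x2⟩ ≠ c2 ⟨v, v2⟩ := c2.valid (show G.Adj x v from e.symm)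
          refine two_colours hq _ _ (c1 ⟨v, v1⟩) n1 fun h3 => n2 (σ.injective ?_)
          rw [h3]
          exact (Equiv.swap_apply_left _ _).symm
      have mem2 : ∀ x : T, x.1 ∉ A → x.1 ∈ T \ A := fun x hx => ⟨x.2, hx⟩
      refine ⟨SimpleGraph.Coloring.mk (fun x : T => if hx : x.1 ∈ A then c1 ⟨x.1, Or.inl hx⟩ else
        σ (c2 ⟨x.1, mem2 x hx⟩)) ?_⟩
      rintro ⟨x, hx⟩ ⟨y, hy⟩ hxy
      have hxy' : G.Adj x y := hxy
      show (if hx : x ∈ A then c1 ⟨x, Or.inl hx⟩ else σ (c2 ⟨x, _⟩)) ≠
        (if hy : y ∈ A then c1 ⟨y, Or.inl hy⟩ else σ (c2 ⟨y, _⟩))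
      by_cases hxA : x ∈ A <;> by_cases hyA : y ∈ A
      · rw [dif_pos hxA, dif_pos hyA]
        exact c1.valid (show G.Adj x y from hxy')
      · rw [dif_pos hxA, dif_neg hyA]
        have hyS : y ∈ S := by
          by_contra hyS
          exact hyA (hadj x y hxA hy hyS hxy')
        rw [← agree y (Or.inr hyS) ⟨hy, hyA⟩ hyS]
        exact c1.valid (show G.Adj x y from hxy')
      · rw [dif_neg hxA, dif_pos hyA]
        have hxS : x ∈ S := by
          by_contra hxS
          exact hxA (hadj y x hyA hx hxS hxy'.symm)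
        rw [← agree x (Or.inr hxS) ⟨hx, hxA⟩ hxS]
        exact c1.valid (show G.Adj x y from hxy')
      · rw [dif_neg hxA, dif_neg hyA]
        intro h3
        exact c2.valid (v := ⟨x, hx, hxA⟩) (w := ⟨y, hy, hyA⟩) hxy' (σ.injective h3)

/-! ### `q = 3`: the Burling graphs -/

section
variable {V : Type} {D A : V → V → Prop} {ρ : V → ℕ}

/-- an antichain induces a forest -/
theorem antichain_acyclic (h : Ax D A ρ) (L : Set V) (hL : ∀ x ∈ L, ∀ y ∈ L, ¬ D x y) :
    ((graph h).induce L).IsAcyclic := by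
  classical
  intro v c hc
  -- a vertex of the cycle of largest rank
  obtain ⟨m, hm, hmax⟩ := c.support.toFinset.exists_max_image (fun x : L => ρ x.1)
    ⟨v, by simp⟩
  rw [List.mem_toFinset] at hm
  have hc' := hc.rotate hm
  set c' := c.rotate m hm with hc'def
  have hmem : ∀ x ∈ c'.support, ρ x.1 ≤ ρ m.1 := by
    intro x hx
    refine hmax x ?_
    rw [List.mem_toFinset]
    exact (SimpleGraph.Walk.mem_support_rotate_iff c m hm).mp hx
  have out : ∀ x ∈ c'.support, ((graph h).induce L).Adj m x → A m.1 x.1 := by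
    intro x hx hadj
    rcases (show A m.1 x.1 ∨ A x.1 m.1 from hadj) with h1 | h1
    · exact h1
    · have := h.rank _ _ h1
      have := hmem x hx
      omega
  have h1 : A m.1 c'.snd.1 := out _ (c'.getVert_mem_support 1) (c'.adj_snd hc'.not_nil)
  have h2 : A m.1 c'.penultimate.1 := out _ (c'.getVert_mem_support (c'.length - 1))
    (c'.adj_penultimate hc'.not_nil).symm
  rcases h.out _ _ _ h1 h2 with h3 | h3 | h3
  · exact hc'.snd_ne_penultimate (Subtype.ext h3)
  · exact hL _ c'.snd.2 _ c'.penultimate.2 h3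
  · exact hL _ c'.penultimate.2 _ c'.snd.2 h3

/-- Every induced subgraph has a star cutset or is a forest plus at most one vertex. -/
theorem cutset' (h : Ax D A ρ) (T : Set V) :
    (∃ u : V, ((graph h).induce (T \ {u})).IsAcyclic) ∨ T = ∅ ∨ HasStarCutset (graph h) T := by
  classical
  rcases T.eq_empty_or_nonempty with rfl | hTne
  · exact Or.inr (Or.inl rfl)
  by_cases hcase : ∃ u ∈ T, ∃ w ∈ T, D u w ∧ ∃ z ∈ T, z ≠ u ∧ ¬ D u z ∧ ¬ A z u
  · right; right
    obtain ⟨u, hu, w, hw, huw, z, hz, hzu, hz1, hz2⟩ := hcase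
    let S : Set V := {v | v ∈ T ∧ (v = u ∨ A v u)}
    have hwS : w ∉ S := by
      rintro ⟨-, h1 | h1⟩
      · subst h1
        exact h.irr _ huw
      · exact (h.inc _ _ h1).2 huw
    have hzS : z ∉ S := by
      rintro ⟨-, h1 | h1⟩
      · exact hzu h1
      · exact hz2 h1
    refine ⟨S, fun v hv => hv.1, ⟨u, ⟨hu, Or.inl rfl⟩, ?_⟩, ⟨w, hw, hwS⟩, ⟨z, hz, hzS⟩, ?_⟩
    · rintro v ⟨-, h1 | h1⟩ hne
      · exact absurd h1 hne
      · exact Or.inr h1
    · have key : ∀ a b : ↥(T \ S), ((graph h).induce (T \ S)).Adj a b → D u a.1 → D u b.1 := by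
        rintro ⟨a, ha, haS⟩ ⟨b, hb, hbS⟩ hab hua
        have hab' : A a b ∨ A b a := hab
        rcases hab' with h1 | h1
        · exact h.down _ _ _ hua h1
        · by_contra hub
          exact hbS ⟨hb, Or.inr (h.up _ _ _ h1 hua hub)⟩
      rintro ⟨p⟩
      have key2 : ∀ a b : ↥(T \ S), ((graph h).induce (T \ S)).Walk a b → D u a.1 → D u b.1 := by
        intro a b p
        induction p with
        | nil => exact id
        | cons hadj p ih => exact fun h1 => ih (key _ _ hadj h1)
      exact hz1 (key2 _ _ p huw)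
  · left
    push Not at hcase
    by_cases hex : ∃ u ∈ T, ∃ w ∈ T, D u w
    · obtain ⟨u, hu, w, hw, huw⟩ := hex
      refine ⟨u, antichain_acyclic h _ ?_⟩
      rintro x ⟨hx, hxu⟩ y ⟨hy, hyu⟩ hxy
      rw [Set.mem_singleton_iff] at hxu hyu
      have h1 : D u x ∨ A x u := by
        by_contra hcon
        push Not at hcon
        exact hcon.2 (hcase u hu w hw huw x hx hxu hcon.1)
      have h2 : D x u ∨ A u x := by
        by_contra hcon
        push Not at hcon
        exact hcon.2 (hcase x hx y hy hxy u hu (Ne.symm hxu) hcon.1)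
      rcases h1 with h1 | h1 <;> rcases h2 with h2 | h2
      · exact h.irr _ (h.trans _ _ _ h1 h2)
      · exact (h.inc _ _ h2).1 h1
      · exact (h.inc _ _ h1).1 h2
      · have := h.rank _ _ h1
        have := h.rank _ _ h2
        omega
    · push Not at hex
      obtain ⟨u, _⟩ := hTne
      exact ⟨u, antichain_acyclic h _ fun x hx y hy => hex x hx.1 y hy.1⟩

end

/-- (1) Let `q ≤ 2` and let `G` be a finite graph every induced subgraph of which is `q`-colourable
or has a star cutset.  Then `G` is `q`-colourable.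
(2) For every `c` there is a finite triangle-free graph which is not `c`-colourable and every induced
subgraph of which has a star cutset or becomes a forest after the deletion of at most one vertex. -/
theorem result :
    (∀ q : ℕ, q ≤ 2 → ∀ (V : Type) [Finite V] (G : SimpleGraph V),
      (∀ T : Set V, (G.induce T).Colorable q ∨ HasStarCutset G T) → G.Colorable q) ∧
    (∀ c : ℕ, ∃ (V : Type) (_ : Finite V) (G : SimpleGraph V), G.CliqueFree 3 ∧
      (∀ T : Set V, (∃ u : V, (G.induce (T \ {u})).IsAcyclic) ∨ HasStarCutset G T) ∧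
      ¬ G.Colorable c) := by
  constructor
  · intro q hq V _ G h
    obtain ⟨c⟩ := small q hq G h _ Set.univ rfl
    exact ⟨SimpleGraph.Coloring.mk (fun x => c ⟨x, trivial⟩) fun {x y} hxy =>
      c.valid (show G.Adj x y from hxy)⟩
  · intro c
    obtain ⟨V, hV, D, A, ρ, leaf, h, hrich⟩ := exists_rich (c + 1)
    obtain ⟨x0, -, -⟩ := hrich (fun v => ρ v) fun v w hvw => (h.rank _ _ hvw).ne'
    refine ⟨V, inferInstance, graph h, triangleFree h, fun T => ?_, ?_⟩
    · rcases cutset' h T with h1 | h1 | h1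
      · exact Or.inl h1
      · subst h1
        exact Or.inl ⟨x0, fun v => absurd v.2.1 (Set.notMem_empty _)⟩
      · exact Or.inr h1
    · rintro ⟨C⟩
      obtain ⟨x, -, t, ht, hbr⟩ := hrich (fun v => (C v : ℕ)) (fun v w hvw h1 =>
        C.valid (show (graph h).Adj v w from Or.inl hvw) (Fin.ext h1))
      have h1 : t ⊆ Finset.range c := by
        intro i hi
        obtain ⟨v, -, hv⟩ := hbr i hi
        rw [Finset.mem_range, ← hv]
        exact (C v).2
      have h2 := Finset.card_le_card h1
      rw [ht, Finset.card_range] at h2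
      omega

end Pool.Agent.Results.MP_4f8534_co.StarCutsetThreshold
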